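import Mathlib
import Pool.Agent.R252.JumpAux

/-!
# `|ℬu ⌞ J_u| ≪ H^{n-1}` for every first-order operator

Let `ℬ[D] u = ∑ⱼ Bⱼ ∂ⱼ u` be any first-order homogeneous operator with constant coefficients, and
let `u ∈ BV^ℬ(Ω)`. Then `|ℬ u|` vanishes on every subset of the jump set `J_u` of zero
`(n-1)`-dimensional Hausdorff measure. No ellipticity is needed.

Proof: at a jump point the averages `r^{-n} ∫_{B_r} |u - a|` stay bounded, so testing `ℬ u` with a
cutoff function gives `|ℬu|(B_{r/2}) ≤ C r^{n-1} + ε(r) |ℬu|(B_r)` at every Lebesgue point of the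
polar vector; iteration shows that the upper `(n-1)`-density of `|ℬ u|` is finite at
`|ℬ u|`-almost every point of `J_u`.
-/

set_option autoImplicit false

open MeasureTheory Set Filter Topology Module
open scoped ContDiff ENNReal NNReal MeasureTheory
open Pool.Agent.R252.Jump

namespace Pool.Agent.Results.MP_06111c_an.JumpAbsolutelyContinuous

/-- Euclidean space `ℝⁿ`. -/
abbrev E (n : ℕ) := EuclideanSpace ℝ (Fin n)

variable {V W : Type*} [NormedAddCommGroup V] [InnerProductSpace ℝ V] [FiniteDimensional ℝ V]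
  [NormedAddCommGroup W] [InnerProductSpace ℝ W] [FiniteDimensional ℝ W]

/-- The `j`-th partial derivative of a scalar test function. -/
noncomputable def pd {n : ℕ} (j : Fin n) (φ : E n → ℝ) (x : E n) : ℝ :=
  fderiv ℝ φ x (EuclideanSpace.single j 1)

/-- `u ∈ BV^ℬ(Ω)` for `ℬ[D] = ∑ⱼ Bⱼ ∂ⱼ`, where the finite `W`-valued measure `ℬ u` on `Ω` is given
by its polar decomposition `ℬ u = σ lam`: `lam = |ℬ u|` is a finite positive measure carried by
`Ω`, and `|σ| = 1` `lam`-almost everywhere. -/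
structure IsBV {n : ℕ} (B : Fin n → V →L[ℝ] W) (Ω : Set (E n)) (u : E n → V)
    (lam : Measure (E n)) (σ : E n → W) : Prop where
  int : IntegrableOn u Ω
  finite : IsFiniteMeasure lam
  carried : lam Ωᶜ = 0
  meas : AEStronglyMeasurable σ lam
  norm_eq : ∀ᵐ x ∂lam, ‖σ x‖ = 1
  test : ∀ φ : E n → ℝ, ContDiff ℝ ∞ φ → HasCompactSupport φ → tsupport φ ⊆ Ω →
    ∫ x, φ x • σ x ∂lam = - ∫ x in Ω, ∑ j, pd j φ x • B j (u x)

/-- The half ball `B_r^+(x, ν)`; the half ball `B_r^-(x, ν)` is `halfBall x (-ν) r`. -/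
def halfBall {n : ℕ} (x ν : E n) (r : ℝ) : Set (E n) :=
  {y | y ∈ Metric.ball x r ∧ 0 < inner ℝ (y - x) ν}

/-- The jump set `J_u`. -/
def jumpSet {n : ℕ} (Ω : Set (E n)) (u : E n → V) : Set (E n) :=
  {x | x ∈ Ω ∧ ∃ a b : V, a ≠ b ∧ ∃ ν : E n, ‖ν‖ = 1 ∧
    Tendsto (fun r : ℝ => 1 / r ^ n * ∫ y in halfBall x ν r, ‖u y - a‖) (𝓝[>] 0) (𝓝 0) ∧
    Tendsto (fun r : ℝ => 1 / r ^ n * ∫ y in halfBall x (-ν) r, ‖u y - b‖) (𝓝[>] 0) (𝓝 0)}

section proofs

set_option linter.unusedSectionVars false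

variable {n : ℕ}

lemma halfBall_meas (x ν : E n) (r : ℝ) : MeasurableSet (halfBall x ν r) := by
  have h1 : Continuous (fun y : E n => inner ℝ (y - x) ν) :=
    (continuous_id.sub continuous_const).inner continuous_const
  have h2 : halfBall x ν r = Metric.ball x r ∩ {y | 0 < inner ℝ (y - x) ν} := rfl
  rw [h2]
  exact Metric.isOpen_ball.measurableSet.inter (isOpen_lt continuous_const h1).measurableSet

/-- The hyperplane through `x` orthogonal to `ν` is a null set. -/
lemma hyper_null (x : E n) {ν : E n} (hν : ‖ν‖ = 1) :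
    volume {y : E n | inner ℝ (y - x) ν = 0} = 0 := by
  have h1 : volume ((ℝ ∙ ν)ᗮ : Set (E n)) = 0 := by
    apply Measure.addHaar_submodule
    intro h
    have hmem : ν ∈ (ℝ ∙ ν)ᗮ := by rw [h]; trivial
    rw [Submodule.mem_orthogonal_singleton_iff_inner_right] at hmem
    rw [real_inner_self_eq_norm_sq, hν] at hmem
    norm_num at hmem
  have h2 : {y : E n | inner ℝ (y - x) ν = 0} = (fun y => y + (-x)) ⁻¹' ((ℝ ∙ ν)ᗮ : Set (E n)) := by
    ext y
    simp only [mem_preimage, mem_ofPred_eq, SetLike.mem_coe,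
      Submodule.mem_orthogonal_singleton_iff_inner_left, ← sub_eq_add_neg]
  rw [h2, measure_preimage_add_right, h1]

/-- At a jump point the mean oscillation is bounded. -/
lemma jump_bound {Ω : Set (E n)} (hΩ : IsOpen Ω) {u : E n → V} (hu : IntegrableOn u Ω)
    {x : E n} (hx : x ∈ jumpSet Ω u) :
    ∃ (a : V) (K ρ : ℝ), 0 ≤ K ∧ 0 < ρ ∧ Metric.closedBall x ρ ⊆ Ω ∧ ∀ r, 0 < r → r ≤ ρ →
      ∫ y in Metric.ball x r, ‖u y - a‖ ≤ K * r ^ n := by
  obtain ⟨hxΩ, a, b, -, ν, hν, h1, h2⟩ := hx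
  obtain ⟨ρ1, hρ1, hball⟩ := Metric.nhds_basis_closedBall.mem_iff.1 (hΩ.mem_nhds hxΩ)
  have e1 : ∀ᶠ r : ℝ in 𝓝[>] 0, 1 / r ^ n * ∫ y in halfBall x ν r, ‖u y - a‖ < 1 :=
    h1.eventually (gt_mem_nhds zero_lt_one)
  have e2 : ∀ᶠ r : ℝ in 𝓝[>] 0, 1 / r ^ n * ∫ y in halfBall x (-ν) r, ‖u y - b‖ < 1 :=
    h2.eventually (gt_mem_nhds zero_lt_one)
  obtain ⟨ρ2, hρ2, hρ2'⟩ := (mem_nhdsGT_iff_exists_Ioo_subset).1 (e1.and e2)
  set vb : ℝ := (volume (Metric.ball (0 : E n) 1)).toReal with hvb
  set ρ := min ρ1 (ρ2 / 2) with hρ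
  have hρ2p : (0 : ℝ) < ρ2 := hρ2
  have hρ0 : 0 < ρ := lt_min hρ1 (by linarith)
  refine ⟨a, 2 + ‖a - b‖ * vb, ρ, by positivity, hρ0,
    (Metric.closedBall_subset_closedBall (min_le_left _ _)).trans hball, ?_⟩
  intro r hr hrρ
  have hrIoo : r ∈ Ioo 0 ρ2 := ⟨hr, by
    have := hrρ.trans (min_le_right _ _); linarith⟩
  obtain ⟨g1, g2⟩ := hρ2' hrIoo
  have hrn : 0 < r ^ n := by positivity
  rw [one_div, inv_mul_lt_iff₀ hrn, mul_one] at g1 g2
  have hballΩ : Metric.ball x r ⊆ Ω :=
    (Metric.ball_subset_closedBall.trans (Metric.closedBall_subset_closedBall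
      (hrρ.trans (min_le_left _ _)))).trans hball
  have hfinball : volume (Metric.ball x r) ≠ ⊤ := measure_ball_lt_top.ne
  have hint : ∀ c : V, IntegrableOn (fun y => ‖u y - c‖) (Metric.ball x r) := by
    intro c
    exact ((hu.mono_set hballΩ).sub (integrableOn_const hfinball)).norm
  -- decompose the ball
  have hdec : ∫ y in Metric.ball x r, ‖u y - a‖
      = ∫ y in halfBall x ν r ∪ halfBall x (-ν) r, ‖u y - a‖ := by
    apply setIntegral_congr_set
    have hsub : (Metric.ball x r) \ (halfBall x ν r ∪ halfBall x (-ν) r)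
        ⊆ {y : E n | inner ℝ (y - x) ν = 0} := by
      rintro y ⟨hy, hy2⟩
      simp only [halfBall, mem_union, mem_ofPred_eq, not_or, not_and, not_lt,
        inner_neg_right] at hy2
      have a1 := hy2.1 hy
      have a2 := hy2.2 hy
      exact le_antisymm a1 (by linarith)
    have hnull : volume ((Metric.ball x r) \ (halfBall x ν r ∪ halfBall x (-ν) r)) = 0 :=
      measure_mono_null hsub (hyper_null x hν)
    have hsub2 : halfBall x ν r ∪ halfBall x (-ν) r ⊆ Metric.ball x r := by
      rintro y (hy | hy)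
      · exact hy.1
      · exact hy.1
    exact (ae_eq_set.2 ⟨hnull, by rw [sdiff_eq_empty.2 hsub2]; exact measure_empty⟩)
  have hdisj : Disjoint (halfBall x ν r) (halfBall x (-ν) r) := by
    rw [Set.disjoint_left]
    intro y hy hy2
    have a1 := hy.2
    have a2 := hy2.2
    rw [inner_neg_right] at a2
    linarith
  have hs1 : halfBall x ν r ⊆ Metric.ball x r := fun y hy => hy.1
  have hs2 : halfBall x (-ν) r ⊆ Metric.ball x r := fun y hy => hy.1
  rw [hdec, setIntegral_union hdisj (halfBall_meas _ _ _) ((hint a).mono_set hs1)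
    ((hint a).mono_set hs2)]
  have h3 : ∫ y in halfBall x (-ν) r, ‖u y - a‖ ≤ r ^ n + ‖a - b‖ * vb * r ^ n := by
    have hconst : IntegrableOn (fun _ : E n => ‖a - b‖) (halfBall x (-ν) r) :=
      integrableOn_const (ne_top_of_le_ne_top hfinball (measure_mono hs2))
    have hvol : (volume (halfBall x (-ν) r)).toReal ≤ vb * r ^ n := by
      have h5 := measure_mono (μ := (volume : Measure (E n))) hs2
      rw [Measure.addHaar_ball_of_pos _ _ hr] at h5
      have h6 := ENNReal.toReal_mono (by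
        exact ENNReal.mul_ne_top ENNReal.ofReal_ne_top measure_ball_lt_top.ne) h5
      rw [ENNReal.toReal_mul, ENNReal.toReal_ofReal (by positivity),
        finrank_euclideanSpace_fin] at h6
      rw [mul_comm]; exact h6
    calc ∫ y in halfBall x (-ν) r, ‖u y - a‖
        ≤ ∫ y in halfBall x (-ν) r, (‖u y - b‖ + ‖a - b‖) := by
          apply setIntegral_mono_on ((hint a).mono_set hs2)
            (((hint b).mono_set hs2).add hconst) (halfBall_meas _ _ _)
          intro y _
          calc ‖u y - a‖ = ‖(u y - b) - (a - b)‖ := by congr 1; abel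
            _ ≤ _ := norm_sub_le _ _
      _ = (∫ y in halfBall x (-ν) r, ‖u y - b‖) + ∫ _y in halfBall x (-ν) r, ‖a - b‖ :=
          integral_add ((hint b).mono_set hs2) hconst
      _ ≤ r ^ n + ‖a - b‖ * vb * r ^ n := by
          rw [setIntegral_const, smul_eq_mul, Measure.real]
          have : (volume (halfBall x (-ν) r)).toReal * ‖a - b‖ ≤ vb * r ^ n * ‖a - b‖ :=
            mul_le_mul_of_nonneg_right hvol (norm_nonneg _)
          linarith
  linarith

/-- The scaled cutoff function. -/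
lemma exists_cutoff (n : ℕ) : ∃ Cf : ℝ, 0 ≤ Cf ∧ ∀ (x : E n) (r : ℝ), 0 < r →
    ∃ φ : E n → ℝ, ContDiff ℝ ∞ φ ∧ HasCompactSupport φ ∧ (∀ y, 0 ≤ φ y) ∧ (∀ y, φ y ≤ 1) ∧
      (∀ y ∈ Metric.closedBall x (r / 2), φ y = 1) ∧ tsupport φ ⊆ Metric.ball x r ∧
      ∀ y, ‖fderiv ℝ φ y‖ ≤ Cf / r := by
  let f : ContDiffBump (0 : E n) := ⟨1 / 2, 3 / 4, by norm_num, by norm_num⟩
  have hfs : ContDiff ℝ ∞ f := f.contDiff
  have hfc : HasCompactSupport f := f.hasCompactSupport
  have hcont : Continuous (fderiv ℝ f) := hfs.continuous_fderiv (by simp)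
  obtain ⟨Cf, hCf⟩ := hcont.bounded_above_of_compact_support (hfc.fderiv (𝕜 := ℝ))
  have hCf0 : 0 ≤ Cf := (norm_nonneg _).trans (hCf 0)
  refine ⟨Cf, hCf0, fun x r hr => ?_⟩
  set φ : E n → ℝ := fun y => f ((1 / r) • (y - x)) with hφ
  have hφs : ContDiff ℝ ∞ φ := by
    have h1 : ContDiff ℝ ∞ (fun y : E n => (1 / r) • (y - x)) := by fun_prop
    exact hfs.comp h1
  have hzero : ∀ y, y ∉ Metric.closedBall x (3 / 4 * r) → φ y = 0 := by
    intro y hy
    rw [Metric.mem_closedBall, not_le, dist_eq_norm] at hy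
    have h1 : f ((1 / r) • (y - x)) = 0 := by
      apply f.zero_of_le_dist
      rw [dist_zero_right, norm_smul, Real.norm_of_nonneg (by positivity), one_div,
        inv_mul_eq_div, le_div_iff₀ hr]
      exact hy.le
    exact h1
  have hsupp : tsupport φ ⊆ Metric.closedBall x (3 / 4 * r) := by
    apply closure_minimal _ Metric.isClosed_closedBall
    intro y hy
    by_contra hcon
    exact hy (hzero y hcon)
  refine ⟨φ, hφs, ?_, fun y => f.nonneg, fun y => f.le_one, ?_, ?_, ?_⟩
  · exact HasCompactSupport.of_support_subset_isCompact (isCompact_closedBall x (3 / 4 * r))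
      ((subset_tsupport _).trans hsupp)
  · intro y hy
    apply f.one_of_mem_closedBall
    rw [Metric.mem_closedBall, dist_eq_norm] at hy
    rw [mem_closedBall_zero_iff, norm_smul, Real.norm_of_nonneg (by positivity), one_div,
      inv_mul_eq_div, div_le_iff₀ hr]
    change ‖y - x‖ ≤ 1 / 2 * r
    linarith
  · exact hsupp.trans (Metric.closedBall_subset_ball (by linarith))
  · intro y
    have h1 : HasFDerivAt (fun y : E n => (1 / r) • (y - x))
        ((1 / r) • ContinuousLinearMap.id ℝ (E n)) y :=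
      ((hasFDerivAt_id y).sub_const x).const_smul (1 / r)
    have h2 := ((hfs.differentiable (by simp)) ((1 / r) • (y - x))).hasFDerivAt.comp y h1
    have h3 : fderiv ℝ φ y = (fderiv ℝ f ((1 / r) • (y - x))).comp
        ((1 / r) • ContinuousLinearMap.id ℝ (E n)) := h2.fderiv
    rw [h3, ContinuousLinearMap.comp_smul, ContinuousLinearMap.comp_id, norm_smul,
      Real.norm_of_nonneg (by positivity), one_div, inv_mul_eq_div]
    exact div_le_div_of_nonneg_right (hCf _) hr.le

/-- The integral of a partial derivative of a test function vanishes. -/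
lemma integral_pd (φ : E n → ℝ) (hφ : ContDiff ℝ ∞ φ) (hc : HasCompactSupport φ) (j : Fin n) :
    ∫ x, pd j φ x = 0 := by
  have h1 := integral_mul_fderiv_eq_neg_fderiv_mul_of_integrable (μ := (volume : Measure (E n)))
    (f := fun _ => (1 : ℝ)) (g := φ) (v := (EuclideanSpace.single j (1 : ℝ) : E n))
    (by simp) (by
      simp only [one_mul]
      exact (hφ.continuous_fderiv (by simp)).clm_apply continuous_const |>.integrable_of_hasCompactSupport
        (hc.fderiv_apply (𝕜 := ℝ) _)) (by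
      simp only [one_mul]
      exact hφ.continuous.integrable_of_hasCompactSupport hc)
    (fun x _ => differentiableAt_const _) (fun x _ => (hφ.differentiable (by simp)) x)
  simpa [pd] using h1

/-- The decay estimate at a jump point which is a Lebesgue point of the polar vector. -/
lemma density_bound {k : ℕ} {B : Fin (k + 1) → V →L[ℝ] W} {Ω : Set (E (k + 1))} (hΩ : IsOpen Ω)
    {u : E (k + 1) → V} {lam : Measure (E (k + 1))} {σ : E (k + 1) → W}
    (hu : IsBV B Ω u lam σ) {x : E (k + 1)} (hx : x ∈ jumpSet Ω u) (hσx : ‖σ x‖ = 1)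
    (hL : Tendsto (fun r => ⨍ y in Metric.closedBall x r, ‖σ y - σ x‖ ∂lam) (𝓝[>] 0) (𝓝 0)) :
    ∃ C ρ : ℝ, 0 ≤ C ∧ 0 < ρ ∧ ∀ r, 0 < r → r ≤ ρ →
      (lam (Metric.closedBall x r)).toReal ≤ C * r ^ k := by
  have := hu.finite
  obtain ⟨a, K, ρ1, hK, hρ1, hball, hosc⟩ := jump_bound hΩ hu.int hx
  obtain ⟨Cf, hCf, hcut⟩ := exists_cutoff (k + 1)
  obtain ⟨ρ2, hρ2, hρ2'⟩ := (mem_nhdsGT_iff_exists_Ioo_subset).1
    (hL.eventually (gt_mem_nhds (show (0 : ℝ) < (1 / 2) ^ (k + 1) by positivity)))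
  have hρ2p : (0 : ℝ) < ρ2 := hρ2
  set ρ := min ρ1 (ρ2 / 2) with hρ
  have hρ0 : 0 < ρ := lt_min hρ1 (by linarith)
  set SB : ℝ := ∑ j, ‖B j‖ with hSB
  set D : ℝ → ℝ := fun r => (lam (Metric.closedBall x r)).toReal with hD
  have hσi : Integrable σ lam := by
    refine Integrable.of_bound hu.meas 1 ?_
    filter_upwards [hu.norm_eq] with y hy
    exact hy.le
  have hstep : ∀ r, 0 < r → r ≤ ρ → D (r / 2) ≤ (Cf * SB * K) * r ^ k + (1 / 2) ^ (k + 1) * D r := by
    intro r hr hrρ
    obtain ⟨φ, hφs, hφc, hφ0, hφ1, hφone, hφsupp, hφd⟩ := hcut x r hr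
    have hballΩ : Metric.ball x r ⊆ Ω :=
      (Metric.ball_subset_closedBall.trans (Metric.closedBall_subset_closedBall
        (hrρ.trans (min_le_left _ _)))).trans hball
    have htest := hu.test φ hφs hφc (hφsupp.trans hballΩ)
    set T : W := ∫ y, φ y • σ y ∂lam with hT
    have hpd0 : ∀ j, ∀ y, y ∉ Metric.ball x r → pd j φ y = 0 := by
      intro j y hy
      have h1 : y ∉ tsupport φ := fun h => hy (hφsupp h)
      have h2 : fderiv ℝ φ y = 0 := by
        by_contra hcon
        exact h1 (support_fderiv_subset ℝ hcon)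
      simp [pd, h2]
    have hpdb : ∀ j, ∀ y, ‖pd j φ y‖ ≤ Cf / r := by
      intro j y
      have h1 := (fderiv ℝ φ y).le_opNorm (EuclideanSpace.single j (1 : ℝ))
      rw [PiLp.norm_single, norm_one, mul_one] at h1
      exact h1.trans (hφd y)
    have hpdc : ∀ j, Continuous (pd j φ) := fun j =>
      (hφs.continuous_fderiv (by simp)).clm_apply continuous_const
    have hpdm : ∀ j, HasCompactSupport (pd j φ) := fun j => hφc.fderiv_apply (𝕜 := ℝ) _
    -- subtract the constant `a`
    have hsub : ∫ y in Ω, ∑ j, pd j φ y • B j (u y)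
        = ∫ y in Ω, ∑ j, pd j φ y • B j (u y - a) := by
      have i1 : ∀ j, IntegrableOn (fun y => pd j φ y • B j (u y)) Ω := by
        intro j
        have h1 : IntegrableOn (fun y => B j (u y)) Ω := (B j).integrable_comp hu.int
        exact h1.bdd_smul (Cf / r) (hpdc j).aestronglyMeasurable
          (Eventually.of_forall fun y => hpdb j y)
      have i2 : ∀ j, IntegrableOn (fun y => pd j φ y • B j a) Ω := by
        intro j
        exact (((hpdc j).integrable_of_hasCompactSupport (hpdm j)).smul_const _).integrableOn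
      have h0 : ∫ y in Ω, ∑ j, pd j φ y • B j a = 0 := by
        rw [integral_finsetSum _ fun j _ => i2 j]
        refine Finset.sum_eq_zero fun j _ => ?_
        rw [integral_smul_const]
        have h1 : ∫ y in Ω, pd j φ y = ∫ y, pd j φ y := by
          apply setIntegral_eq_integral_of_forall_compl_eq_zero
          intro y hy
          exact hpd0 j y fun h => hy (hballΩ h)
        rw [h1, integral_pd φ hφs hφc j, zero_smul]
      have h2 : ∀ y, ∑ j, pd j φ y • B j (u y - a)
          = ∑ j, pd j φ y • B j (u y) - ∑ j, pd j φ y • B j a := by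
        intro y
        rw [← Finset.sum_sub_distrib]
        refine Finset.sum_congr rfl fun j _ => ?_
        rw [map_sub, smul_sub]
      simp_rw [h2]
      rw [integral_sub (integrable_finsetSum _ fun j _ => i1 j)
        (integrable_finsetSum _ fun j _ => i2 j), h0, sub_zero]
    have hTn : ‖T‖ ≤ (Cf * SB * K) * r ^ k := by
      rw [htest, norm_neg, hsub]
      have h1 : ∫ y in Ω, ∑ j, pd j φ y • B j (u y - a)
          = ∫ y in Metric.ball x r, ∑ j, pd j φ y • B j (u y - a) := by
        apply setIntegral_eq_of_subset_of_forall_sdiff_eq_zero hΩ.measurableSet hballΩ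
        intro y hy
        refine Finset.sum_eq_zero fun j _ => ?_
        rw [hpd0 j y hy.2, zero_smul]
      rw [h1]
      have hint : IntegrableOn (fun y => ‖u y - a‖) (Metric.ball x r) :=
        ((hu.int.mono_set hballΩ).sub (integrableOn_const measure_ball_lt_top.ne)).norm
      have h2 : ‖∫ y in Metric.ball x r, ∑ j, pd j φ y • B j (u y - a)‖
          ≤ ∫ y in Metric.ball x r, (Cf / r * SB) * ‖u y - a‖ := by
        apply norm_integral_le_of_norm_le (hint.const_mul _)
        refine Eventually.of_forall fun y => ?_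
        calc ‖∑ j, pd j φ y • B j (u y - a)‖ ≤ ∑ j, ‖pd j φ y • B j (u y - a)‖ :=
              norm_sum_le _ _
          _ ≤ ∑ j, (Cf / r) * (‖B j‖ * ‖u y - a‖) := by
              refine Finset.sum_le_sum fun j _ => ?_
              rw [norm_smul]
              exact mul_le_mul (hpdb j y) ((B j).le_opNorm _) (norm_nonneg _) (by positivity)
          _ = (Cf / r * SB) * ‖u y - a‖ := by
              rw [← Finset.mul_sum, ← Finset.sum_mul]; ring
      refine h2.trans ?_
      rw [integral_const_mul]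
      have h3 := hosc r hr (hrρ.trans (min_le_left _ _))
      have hSB0 : 0 ≤ SB := Finset.sum_nonneg fun j _ => norm_nonneg _
      calc (Cf / r * SB) * ∫ y in Metric.ball x r, ‖u y - a‖
          ≤ (Cf / r * SB) * (K * r ^ (k + 1)) :=
            mul_le_mul_of_nonneg_left h3 (by positivity)
        _ = (Cf * SB * K) * r ^ k := by rw [pow_succ]; field_simp
    -- lower bound
    have hφi : Integrable φ lam := hφs.continuous.integrable_of_hasCompactSupport hφc
    have hlow : D (r / 2) ≤ ∫ y, φ y ∂lam := by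
      have h1 : ∫ y in Metric.closedBall x (r / 2), φ y ∂lam ≤ ∫ y, φ y ∂lam :=
        setIntegral_le_integral hφi (Eventually.of_forall hφ0)
      refine le_trans (le_of_eq ?_) h1
      rw [setIntegral_congr_fun (g := fun _ => (1 : ℝ)) Metric.isClosed_closedBall.measurableSet
        (fun y hy => hφone y hy), setIntegral_const]
      simp [hD, Measure.real]
    have hφσ : Integrable (fun y => φ y • σ y) lam :=
      hσi.bdd_smul 1 hφs.continuous.aestronglyMeasurable
        (Eventually.of_forall fun y => by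
          rw [Real.norm_of_nonneg (hφ0 y)]; exact hφ1 y)
    have hinner : inner ℝ (σ x) T = ∫ y, φ y * inner ℝ (σ x) (σ y) ∂lam := by
      rw [hT, ← integral_inner hφσ]
      simp only [inner_smul_right]
    have hdiff : ∫ y, φ y ∂lam - inner ℝ (σ x) T
        ≤ ∫ y in Metric.closedBall x r, ‖σ y - σ x‖ ∂lam := by
      have i3 : Integrable (fun y => φ y * inner ℝ (σ x) (σ y)) lam := by
        have := hφσ.const_inner (𝕜 := ℝ) (σ x)
        simpa only [inner_smul_right] using this
      have i4 : Integrable (fun y => ‖σ y - σ x‖) lam := (hσi.sub (integrable_const _)).norm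
      have hone : inner ℝ (σ x) (σ x) = 1 := by
        rw [real_inner_self_eq_norm_sq, hσx]; norm_num
      rw [hinner, ← integral_sub hφi i3]
      have h5 : ∫ y, (φ y - φ y * inner ℝ (σ x) (σ y)) ∂lam
          = ∫ y in Metric.closedBall x r, (φ y - φ y * inner ℝ (σ x) (σ y)) ∂lam := by
        symm
        apply setIntegral_eq_integral_of_forall_compl_eq_zero
        intro y hy
        have : φ y = 0 := by
          apply image_eq_zero_of_notMem_tsupport
          intro h
          exact hy (Metric.ball_subset_closedBall (hφsupp h))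
        rw [this]; ring
      rw [h5]
      apply setIntegral_mono_on (hφi.sub i3).integrableOn i4.integrableOn
        Metric.isClosed_closedBall.measurableSet
      intro y _
      change φ y - φ y * inner ℝ (σ x) (σ y) ≤ ‖σ y - σ x‖
      have h6 : φ y - φ y * inner ℝ (σ x) (σ y) = φ y * inner ℝ (σ x) (σ x - σ y) := by
        rw [inner_sub_right, hone]; ring
      rw [h6]
      have h7 : inner ℝ (σ x) (σ x - σ y) ≤ ‖σ y - σ x‖ := by
        have := real_inner_le_norm (σ x) (σ x - σ y)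
        rw [hσx, one_mul, norm_sub_rev] at this
        exact this
      have h8 : φ y * inner ℝ (σ x) (σ x - σ y) ≤ φ y * ‖σ y - σ x‖ :=
        mul_le_mul_of_nonneg_left h7 (hφ0 y)
      have h9 : φ y * ‖σ y - σ x‖ ≤ 1 * ‖σ y - σ x‖ :=
        mul_le_mul_of_nonneg_right (hφ1 y) (norm_nonneg _)
      linarith
    have havg : ∫ y in Metric.closedBall x r, ‖σ y - σ x‖ ∂lam ≤ (1 / 2) ^ (k + 1) * D r := by
      have h1 := measure_smul_setAverage (μ := lam) (fun y => ‖σ y - σ x‖)
        (s := Metric.closedBall x r) (measure_ne_top _ _)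
      rw [← h1, smul_eq_mul, mul_comm]
      apply mul_le_mul_of_nonneg_right _ ENNReal.toReal_nonneg
      have : r ∈ Ioo 0 ρ2 := ⟨hr, by
        have := hrρ.trans (min_le_right _ _); linarith⟩
      exact (hρ2' this).le
    have hcs : inner ℝ (σ x) T ≤ ‖T‖ := by
      have := real_inner_le_norm (σ x) T
      rwa [hσx, one_mul] at this
    linarith
  have hmono : ∀ r s, r ≤ s → D r ≤ D s := by
    intro r s hrs
    exact ENNReal.toReal_mono (measure_ne_top _ _)
      (measure_mono (Metric.closedBall_subset_closedBall hrs))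
  obtain ⟨C, hC, hbound⟩ := iterate_bound (D := D) (K := Cf * SB * K) hρ0 k hmono
    (fun r => ENNReal.toReal_nonneg) hstep
  exact ⟨C, ρ, hC, hρ0, hbound⟩

end proofs

/-- **Theorem.** Let `n ≥ 2`, let `ℬ[D] u = ∑ⱼ Bⱼ ∂ⱼ u` be any first-order homogeneous operator
with constant coefficients (elliptic or not), `Ω ⊆ ℝⁿ` open and `u ∈ BV^ℬ(Ω)`. Then
`|ℬ u|(S) = 0` for every `S ⊆ J_u` with `H^{n-1}(S) = 0`; that is, `|ℬ u ⌞ J_u| ≪ H^{n-1}`. -/
theorem result (n : ℕ) (hn : 2 ≤ n) (B : Fin n → V →L[ℝ] W) (Ω : Set (E n)) (hΩ : IsOpen Ω)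
    (u : E n → V) (lam : Measure (E n)) (σ : E n → W) (hu : IsBV B Ω u lam σ)
    (S : Set (E n)) (hS : S ⊆ jumpSet Ω u) (hnull : μH[(n : ℝ) - 1] S = 0) : lam S = 0 := by
  obtain ⟨k, rfl⟩ : ∃ k, n = k + 1 := ⟨n - 1, by omega⟩
  have hk : 0 < k := by omega
  have := hu.finite
  have hσi : Integrable σ lam := by
    refine Integrable.of_bound hu.meas 1 ?_
    filter_upwards [hu.norm_eq] with y hy
    exact hy.le
  -- Lebesgue points
  have hleb : ∀ᵐ x ∂lam, ‖σ x‖ = 1 ∧
      Tendsto (fun r => ⨍ y in Metric.closedBall x r, ‖σ y - σ x‖ ∂lam) (𝓝[>] 0) (𝓝 0) := by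
    filter_upwards [hu.norm_eq,
      (Besicovitch.vitaliFamily lam).ae_tendsto_average_norm_sub hσi.locallyIntegrable]
      with x h1 h2
    exact ⟨h1, h2.comp (Besicovitch.tendsto_filterAt lam x)⟩
  set G : Set (E (k + 1)) := {x | ‖σ x‖ = 1 ∧
      Tendsto (fun r => ⨍ y in Metric.closedBall x r, ‖σ y - σ x‖ ∂lam) (𝓝[>] 0) (𝓝 0)} with hG
  have hGc : lam Gᶜ = 0 := hleb
  set Sm : ℕ → Set (E (k + 1)) := fun m => {x ∈ S | ∀ r, 0 < r → r ≤ 1 / ((m : ℝ) + 1) →
    lam (Metric.closedBall x r) ≤ ((m : ℝ≥0) : ℝ≥0∞) * ENNReal.ofReal (r ^ (k : ℝ))} with hSm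
  have hcover : S ∩ G ⊆ ⋃ m, Sm m := by
    rintro x ⟨hxS, hx1, hx2⟩
    obtain ⟨C, ρ, hC, hρ, hb⟩ := density_bound hΩ hu (hS hxS) hx1 hx2
    obtain ⟨m1, hm1⟩ := exists_nat_ge C
    obtain ⟨m2, hm2⟩ := exists_nat_one_div_lt hρ
    rw [mem_iUnion]
    refine ⟨max m1 m2, hxS, ?_⟩
    intro r hr hr2
    have hrρ : r ≤ ρ := by
      refine hr2.trans (le_trans ?_ hm2.le)
      apply one_div_le_one_div_of_le (by positivity)
      have : (m2 : ℝ) ≤ ((max m1 m2 : ℕ) : ℝ) := by exact_mod_cast le_max_right _ _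
      linarith
    have h1 := hb r hr hrρ
    have h2 : lam (Metric.closedBall x r) = ENNReal.ofReal (lam (Metric.closedBall x r)).toReal :=
      (ENNReal.ofReal_toReal (measure_ne_top _ _)).symm
    rw [h2, Real.rpow_natCast, ← ENNReal.ofReal_coe_nnreal, ← ENNReal.ofReal_mul (by positivity)]
    apply ENNReal.ofReal_le_ofReal
    refine h1.trans (mul_le_mul_of_nonneg_right ?_ (by positivity))
    refine hm1.trans ?_
    rw [NNReal.coe_natCast]
    exact_mod_cast le_max_left _ _
  have hSm0 : ∀ m, lam (Sm m) = 0 := by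
    intro m
    apply null_of_density lam (s := (k : ℝ)) (by exact_mod_cast hk) (C := (m : ℝ≥0))
      (ρ₀ := 1 / ((m : ℝ) + 1)) (by positivity) (fun x hx => hx.2)
    have h1 : ((k + 1 : ℕ) : ℝ) - 1 = (k : ℝ) := by push_cast; ring
    rw [h1] at hnull
    exact measure_mono_null (fun x hx => hx.1) hnull
  have h1 : lam (S ∩ G) = 0 :=
    measure_mono_null hcover (measure_iUnion_null hSm0)
  have h2 : S ⊆ (S ∩ G) ∪ Gᶜ := by
    intro x hx
    by_cases hxG : x ∈ G
    · exact Or.inl ⟨hx, hxG⟩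
    · exact Or.inr hxG
  exact measure_mono_null h2 (measure_union_null h1 hGc)

end Pool.Agent.Results.MP_06111c_an.JumpAbsolutelyContinuous
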